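import Pool.Agent.Helper39.RP.SigC

/-!
# Project RP, S_SIG, part E: the logarithms span the space
-/

set_option linter.unusedSectionVars false

namespace Pool.Agent.Helper39.RP

open NumberField Polynomial Module Pool.Agent.Helper51.SigLeo
open Pool.Agent.Helper51.RP

section span

variable {p : ℕ} [Fact p.Prime] {k : Type} [NormedField k] [NormedAlgebra ℚ_[p] k]
  [IsUltrametricDist k] {M : Type} [Field M] [NumberField M] (T : Set (M →+* k)) [Fintype T]

/-- Linear independence of the embeddings. -/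
theorem emb_indep (c : T → k) (h : ∀ b : M, ∑ τ : T, c τ * τ.1 b = 0) : c = 0 := by
  have h1 : LinearIndependent k (fun τ : T => ((τ.1 : M →* k) : M → k)) := by
    have h2 := linearIndependent_monoidHom M k
    refine h2.comp (fun τ : T => (τ.1 : M →* k)) ?_
    intro a b hab
    apply Subtype.ext
    ext x
    exact DFunLike.congr_fun hab x
  rw [Fintype.linearIndependent_iff] at h1
  funext τ
  refine h1 c ?_ τ
  funext b
  rw [Finset.sum_apply]
  exact h b

theorem small_case (L : IwasawaLog p k) (c : T → k)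
    (hc : ∀ x ∈ UT T, ∑ τ : T, c τ * ell L T x τ = 0) (b : M) (hb : ∀ τ ∈ T, ‖τ b‖ ≤ 1) :
    ∑ τ : T, c τ * τ.1 b = 0 := by
  have hp := two_le_p p
  have hpi : (0 : ℝ) < (p : ℝ)⁻¹ := by positivity
  have hpi1 : (p : ℝ)⁻¹ < 1 := inv_lt_one_of_one_lt₀ (by linarith)
  rcases T.eq_empty_or_nonempty with hT | ⟨τ₀, hτ₀⟩
  · have : IsEmpty T := Set.isEmpty_coe_sort.2 hT
    exact Finset.sum_of_isEmpty _
  obtain ⟨C, hC0, hC⟩ : ∃ C : ℝ, 0 ≤ C ∧ ∀ τ : T, ‖c τ‖ ≤ C :=
    ⟨‖c‖, norm_nonneg _, fun τ => norm_le_pi_norm c τ⟩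
  have key : ∀ n : ℕ, 1 ≤ n → ‖∑ τ : T, c τ * τ.1 b‖ ≤ C * p * ((p : ℝ)⁻¹) ^ n := by
    intro n hn
    have hpn : ∀ τ : T, ‖τ.1 ((p : M) ^ n * b)‖ ≤ ((p : ℝ)⁻¹) ^ n := by
      intro τ
      rw [map_mul, map_pow, map_natCast, norm_mul, norm_pow, norm_p_k]
      calc _ ≤ ((p : ℝ)⁻¹) ^ n * 1 := by
            refine mul_le_mul_of_nonneg_left (hb τ.1 τ.2) (by positivity)
        _ = _ := mul_one _
    have hpn1 : ((p : ℝ)⁻¹) ^ n ≤ (p : ℝ)⁻¹ := by
      calc _ ≤ ((p : ℝ)⁻¹) ^ 1 := pow_le_pow_of_le_one hpi.le hpi1.le hn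
        _ = _ := pow_one _
    have hnorm : ∀ τ ∈ T, ‖τ (1 + (p : M) ^ n * b)‖ = 1 := by
      intro τ hτ
      rw [map_add, map_one]
      have h1 : ‖τ ((p : M) ^ n * b)‖ < ‖(1 : k)‖ := by
        rw [norm_one]
        exact lt_of_le_of_lt ((hpn ⟨τ, hτ⟩).trans hpn1) hpi1
      rw [IsUltrametricDist.norm_add_eq_max_of_norm_ne_norm h1.ne']
      rw [max_eq_left h1.le, norm_one]
    have hne : 1 + (p : M) ^ n * b ≠ 0 := by
      intro h0
      have := hnorm τ₀ hτ₀
      rw [h0, map_zero, norm_zero] at this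
      exact zero_ne_one this
    set x : Mˣ := Units.mk0 _ hne with hx
    have hxU : x ∈ UT T := fun τ hτ => hnorm τ hτ
    have hx1 : ∀ τ : T, ((Units.map (τ.1 : M →* k) x : kˣ) : k) - 1 =
        τ.1 ((p : M) ^ n * b) := by
      intro τ
      change τ.1 (1 + (p : M) ^ n * b) - 1 = _
      rw [map_add, map_one]; ring
    have h1 := hc x hxU
    have h2 : ∑ τ : T, c τ * (ell L T x τ - τ.1 ((p : M) ^ n * b)) =
        - ((p : k) ^ n * ∑ τ : T, c τ * τ.1 b) := by
      rw [Finset.mul_sum]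
      have h3 : ∀ τ : T, c τ * (ell L T x τ - τ.1 ((p : M) ^ n * b)) =
          c τ * ell L T x τ - (p : k) ^ n * (c τ * τ.1 b) := by
        intro τ
        rw [map_mul, map_pow, map_natCast]; ring
      simp_rw [h3]
      rw [Finset.sum_sub_distrib, h1, zero_sub]
    have h4 : ‖∑ τ : T, c τ * (ell L T x τ - τ.1 ((p : M) ^ n * b))‖ ≤
        C * (p * (((p : ℝ)⁻¹) ^ n) ^ 2) := by
      refine IsUltrametricDist.norm_sum_le_of_forall_le_of_nonneg (by positivity) fun τ _ => ?_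
      rw [norm_mul]
      refine mul_le_mul (hC τ) ?_ (norm_nonneg _) hC0
      have h5 := log_sub_le L (Units.map (τ.1 : M →* k) x) (by
        rw [hx1]
        exact (hpn τ).trans hpn1)
      rw [hx1] at h5
      refine h5.trans ?_
      have := hpn τ
      gcongr
    rw [h2, norm_neg, norm_mul, norm_pow, norm_p_k] at h4
    have h6 : (0 : ℝ) < ((p : ℝ)⁻¹) ^ n := by positivity
    have h7 : C * (p * (((p : ℝ)⁻¹) ^ n) ^ 2) =
        ((p : ℝ)⁻¹) ^ n * (C * p * ((p : ℝ)⁻¹) ^ n) := by ring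
    rw [h7] at h4
    exact le_of_mul_le_mul_left h4 h6
  -- the norm is zero
  have hlim : Filter.Tendsto (fun n : ℕ => C * p * ((p : ℝ)⁻¹) ^ n) Filter.atTop (nhds 0) := by
    have h1 := tendsto_pow_atTop_nhds_zero_of_lt_one hpi.le hpi1
    simpa using h1.const_mul (C * p)
  have h0 : ‖∑ τ : T, c τ * τ.1 b‖ ≤ 0 := by
    refine ge_of_tendsto hlim ?_
    filter_upwards [Filter.eventually_ge_atTop 1] with n hn
    exact key n hn
  exact norm_le_zero_iff.1 h0

theorem all_case (L : IwasawaLog p k) (c : T → k)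
    (hc : ∀ x ∈ UT T, ∑ τ : T, c τ * ell L T x τ = 0) (b : M) :
    ∑ τ : T, c τ * τ.1 b = 0 := by
  have hp := two_le_p p
  obtain ⟨N, hN⟩ : ∃ N : ℕ, ∀ τ : T, ‖τ.1 b‖ ≤ (p : ℝ) ^ N := by
    obtain ⟨N, hN⟩ := pow_unbounded_of_one_lt (‖ev T b‖) (show (1 : ℝ) < p by linarith)
    exact ⟨N, fun τ => (norm_le_pi_norm (ev T b) τ).trans hN.le⟩
  have h1 := small_case T L c hc ((p : M) ^ N * b) (by
    intro τ hτ
    rw [map_mul, map_pow, map_natCast, norm_mul, norm_pow, norm_p_k]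
    calc _ ≤ ((p : ℝ)⁻¹) ^ N * (p : ℝ) ^ N :=
          mul_le_mul_of_nonneg_left (hN ⟨τ, hτ⟩) (by positivity)
      _ = 1 := by rw [← mul_pow, inv_mul_cancel₀ (by positivity), one_pow])
  have h2 : ∑ τ : T, c τ * τ.1 ((p : M) ^ N * b) = (p : k) ^ N * ∑ τ : T, c τ * τ.1 b := by
    rw [Finset.mul_sum]
    refine Finset.sum_congr rfl fun τ _ => ?_
    rw [map_mul, map_pow, map_natCast]; ring
  rw [h2] at h1
  have hp0 : (p : k) ≠ 0 := by
    intro h
    have := norm_p_k (p := p) (k := k)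
    rw [h, norm_zero] at this
    have h3 : (0 : ℝ) < (p : ℝ)⁻¹ := by positivity
    linarith
  exact (mul_eq_zero.1 h1).resolve_left (pow_ne_zero _ hp0)

/-- The logarithms span the space over `k`. -/
theorem span_top (L : IwasawaLog p k) :
    Submodule.span k (ell L T '' (UT T : Set Mˣ)) = ⊤ := by
  classical
  by_contra hne
  obtain ⟨f, hf0, hf⟩ := Submodule.exists_le_ker_of_lt_top _ (lt_top_iff_ne_top.2 hne)
  apply hf0
  set c : T → k := fun τ => f (Pi.single τ 1) with hcdef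
  have hfc : ∀ v : T → k, f v = ∑ τ : T, c τ * v τ := by
    intro v
    conv_lhs => rw [← Finset.univ_sum_single v]
    rw [map_sum]
    refine Finset.sum_congr rfl fun τ _ => ?_
    have h1 : (Pi.single τ (v τ) : T → k) = v τ • (Pi.single τ (1 : k)) := by
      rw [← Pi.single_smul, smul_eq_mul, mul_one]
    rw [h1, map_smul, smul_eq_mul, mul_comm]
  have hc0 := emb_indep T c (all_case T L c fun x hx => by
    rw [← hfc]
    exact hf (Submodule.subset_span ⟨x, hx, rfl⟩))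
  refine LinearMap.ext fun v => ?_
  rw [hfc, hc0]
  simp

end span

end Pool.Agent.Helper39.RP
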