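import Pool.Agent.Helper39.RP.SigD
import Pool.Agent.Helper39.RP.SigE

/-!
# Project RP: the statement S_SIG
-/

set_option linter.unusedSectionVars false

namespace Pool.Agent.Helper39.RP

open NumberField Polynomial Module Pool.Agent.Helper51.SigLeo
open Pool.Agent.Helper51.RP

attribute [local instance] zpMod

section

variable {p : ℕ} [Fact p.Prime] {k : Type} [NormedField k] [NormedAlgebra ℚ_[p] k]
  [IsUltrametricDist k] {K M : Type} [Field K] [Field M] [NumberField M] [Algebra K M]
  (T : Set (K →+* k)) [Fintype (Ab M T)] (δ : M ≃ₐ[K] M) (L : IwasawaLog p k)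

theorem DD_mem {v : (Ab M T) → k} (hv : v ∈ Lam (Ab M T) L) : DD T δ v ∈ Lam (Ab M T) L := by
  have key : Lam (Ab M T) L ≤
      { carrier := {v | DD T δ v ∈ Lam (Ab M T) L}
        zero_mem' := by
          change DD T δ 0 ∈ Lam (Ab M T) L
          rw [map_zero]; exact (Lam (Ab M T) L).zero_mem
        add_mem' := by
          intro a b ha hb
          change DD T δ (a + b) ∈ Lam (Ab M T) L
          rw [map_add]; exact (Lam (Ab M T) L).add_mem ha hb
        smul_mem' := by
          intro c a ha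
          exact (Lam (Ab M T) L).smul_mem c ha } := by
    unfold Lam
    rw [Submodule.span_le]
    rintro _ ⟨x, hx, rfl⟩
    have h := ell_shift T δ L x 1
    rw [Function.iterate_one] at h
    change DD T δ (ell L (Ab M T) x) ∈ Lam (Ab M T) L
    rw [← h]
    exact ell_mem_Lam (Ab M T) L (UT_shift T hx (δ ^ 1))
  exact key hv

/-- The restriction of `D'` to the lattice. -/
noncomputable def DL : Lam (Ab M T) L →ₗ[ℤ_[p]] Lam (Ab M T) L where
  toFun v := ⟨DD T δ v.1, DD_mem T δ L v.2⟩
  map_add' := by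
    intro a b
    apply Subtype.ext
    exact map_add (DD T δ) a.1 b.1
  map_smul' := by
    intro c a
    apply Subtype.ext
    rfl

theorem DL_iter (n : ℕ) (v : Lam (Ab M T) L) :
    (((DL T δ L)^[n] v : Lam (Ab M T) L) : (Ab M T) → k) = (DD T δ)^[n] v.1 := by
  induction n generalizing v with
  | zero => rfl
  | succ n ih =>
    rw [Function.iterate_succ_apply, ih, Function.iterate_succ_apply]
    rfl

end

theorem ell_prod {p : ℕ} {k : Type} [NormedField k] {M : Type} [Field M] (L : IwasawaLog p k)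
    (T : Set (M →+* k)) {ι : Type} (s : Finset ι) (f : ι → Mˣ) :
    ell L T (∏ i ∈ s, f i) = ∑ i ∈ s, ell L T (f i) := by
  classical
  induction s using Finset.induction_on with
  | empty => rw [Finset.prod_empty, Finset.sum_empty, ell_one]
  | insert a s ha ih => rw [Finset.prod_insert ha, Finset.sum_insert ha, ell_mul, ih]

theorem iter_sub {V : Type} [AddCommGroup V] {R : Type} [Semiring R] [Module R V]
    (D : V →ₗ[R] V) (n : ℕ) (a b : V) : D^[n] (a - b) = D^[n] a - D^[n] b := by
  induction n generalizing a b with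
  | zero => rfl
  | succ n ih => rw [Function.iterate_succ_apply, map_sub, ih]; rfl

theorem iter_smul {V : Type} [AddCommGroup V] {R : Type} [Semiring R] [Module R V]
    (D : V →ₗ[R] V) (n : ℕ) (c : R) (a : V) : D^[n] (c • a) = c • D^[n] a := by
  induction n generalizing a with
  | zero => rfl
  | succ n ih => rw [Function.iterate_succ_apply, map_smul, ih]; rfl

theorem s_sig (h1 : S_LAT) : S_SIG := by
  intro p _ k _ _ _ _ hρ L K M _ _ _ _ _ _ m δ ζ Φ P hP hδ hm T hT
  classical
  obtain ⟨ρ⟩ := hρ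
  have hp := two_le_p p
  have hchar : CharZero k := charZero_k p
  have hfinM : Finite (M →+* k) := inferInstance
  let _ : Fintype (Ab M T) := Fintype.ofFinite _
  set Λ := Lam (Ab M T) L with hΛ
  have hfg : Λ.FG := Lam_fg (Ab M T) L
  have hMF : Module.Finite ℤ_[p] Λ := Module.Finite.iff_fg.2 hfg
  have hTF : Module.IsTorsionFree ℤ_[p] Λ := by
    refine Module.IsTorsionFree.of_smul_eq_zero fun r v h => ?_
    have h2 : ((r : ℤ_[p]) : ℚ_[p]) • (v : (Ab M T) → k) = 0 := congrArg Subtype.val h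
    rcases smul_eq_zero.1 h2 with h3 | h3
    · left
      exact Subtype.ext h3
    · right
      exact Subtype.ext h3
  have hFree : Module.Free ℤ_[p] Λ := Module.free_of_finite_type_torsion_free'
  have hDm : ∀ x : Λ, (DL T δ L)^[m] x = x := by
    intro x
    apply Subtype.ext
    rw [DL_iter]
    funext τ
    rw [DD_iter]
    have h0 : (shift T δ)^[m] τ = τ := by
      apply Subtype.ext
      ext y
      rw [shift_iter, ← hδ, pow_orderOf_eq_one]
      rfl
    rw [h0]
  have hm0 : 0 < m := by have := hP.one_lt; omega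
  obtain ⟨F, hFc, hF1, hF2⟩ := h1 p k m ζ Φ P hP Λ (DL T δ L) hDm ((Ab M T) → k) (DD T δ)
    Λ.subtype.toAddMonoidHom (fun x => rfl) (fun c x => by
      funext τ
      change ((c : ℚ_[p]) • (x : (Ab M T) → k)) τ = algebraMap ℚ_[p] k (c : ℚ_[p]) • _
      rw [Pi.smul_apply, Algebra.smul_def]
      rfl) (by
      rw [eq_top_iff, ← span_top (Ab M T) L, Submodule.span_le]
      rintro _ ⟨x, hx, rfl⟩
      exact Submodule.subset_span ⟨⟨_, ell_mem_Lam (Ab M T) L hx⟩, rfl⟩)
    T.ncard (eigen_dim ρ T hδ hm hP.prim.pow_eq_one hm0)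
  -- representatives
  choose X hXU U hUL hX using fun v : Λ => Lam_mod (Ab M T) L v.2
  -- the quotient of two representatives
  have hquot : ∀ v ∈ F, ∀ w ∈ F, v ≠ w →
      ¬ LocSig L (above T : Set (M →+* k)) (X v / X w) := by
    intro v hv w hw hvw hloc
    have hU : X v / X w ∈ UT (Ab M T) := (UT (Ab M T)).div_mem (hXU v) (hXU w)
    obtain ⟨u, hu, hu'⟩ := (locSig_iff (Ab M T) L hU).1 hloc
    apply hF2 v hv w hw hvw
    refine ⟨⟨u, hu⟩ + ⟨U v, hUL v⟩ - ⟨U w, hUL w⟩, ?_⟩
    apply Subtype.ext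
    change (v : (Ab M T) → k) = (w : (Ab M T) → k) + (p : ℤ_[p]) • (u + U v - U w)
    rw [div_eq_mul_inv, ell_mul, ell_inv] at hu'
    rw [hX v, hX w, smul_sub, smul_add, ← hu']
    abel
  have hinj : Set.InjOn X (F : Set Λ) := by
    intro v hv w hw hvw
    by_contra hne
    apply hquot v hv w hw hne
    rw [hvw, div_self']
    have h0 : (1 : Mˣ) ∈ UT (Ab M T) := (UT (Ab M T)).one_mem
    rw [locSig_iff (Ab M T) L h0]
    exact ⟨0, (Lam (Ab M T) L).zero_mem, by rw [ell_one, smul_zero]⟩
  refine ⟨F.image X, ?_, ?_, ?_, ?_⟩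
  · rw [Finset.card_image_of_injOn hinj, hFc]
  · intro x hx
    obtain ⟨v, hv, rfl⟩ := Finset.mem_image.1 hx
    exact hXU v
  · intro x hx
    obtain ⟨v, hv, rfl⟩ := Finset.mem_image.1 hx
    obtain ⟨b, hb⟩ := hF1 v hv
    have hpolU : ∀ j ∈ P.support, (Units.map (((δ ^ j : M ≃ₐ[K] M) : M →+* M) : M →* M) (X v)) ^
        (P.coeff j).val ∈ UT (Ab M T) := fun j _ =>
      (UT (Ab M T)).pow_mem (UT_shift T (hXU v) (δ ^ j)) _
    have hpol : pol P δ (X v) = ∏ j ∈ P.support,
        (Units.map (((δ ^ j : M ≃ₐ[K] M) : M →+* M) : M →* M) (X v)) ^ (P.coeff j).val := by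
      unfold pol
      rw [MonoidHom.finsetProd_apply]
      rfl
    have hU : pol P δ (X v) ∈ UT (Ab M T) := by
      rw [hpol]
      exact Subgroup.prod_mem _ hpolU
    refine (locSig_iff (Ab M T) L hU).2 ?_
    refine ⟨b.1 - ∑ i ∈ P.support, (P.coeff i).val • (DD T δ)^[i] (U v), ?_, ?_⟩
    · refine (Lam (Ab M T) L).sub_mem b.2 (Submodule.sum_mem _ fun i _ => ?_)
      refine nsmul_mem ?_ _
      rw [show U v = (⟨U v, hUL v⟩ : Λ).1 from rfl, ← DL_iter T δ L]
      exact Subtype.property _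
    · rw [hpol, ell_prod]
      have h2 : ∀ i ∈ P.support, ell L (Ab M T)
          ((Units.map (((δ ^ i : M ≃ₐ[K] M) : M →+* M) : M →* M) (X v)) ^ (P.coeff i).val) =
          (P.coeff i).val • (DD T δ)^[i] v.1 -
            (p : ℤ_[p]) • ((P.coeff i).val • (DD T δ)^[i] (U v)) := by
        intro i _
        rw [ell_pow, ell_shift]
        have h3 : ell L (Ab M T) (X v) = v.1 - (p : ℤ_[p]) • U v := by
          rw [hX v]; abel
        rw [h3, iter_sub]
        have h4 : (DD T δ)^[i] ((p : ℤ_[p]) • U v) = (p : ℤ_[p]) • (DD T δ)^[i] (U v) := by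
          rw [Nat.cast_smul_eq_nsmul, Nat.cast_smul_eq_nsmul, ← Nat.cast_smul_eq_nsmul k,
            iter_smul, Nat.cast_smul_eq_nsmul]
        rw [h4, smul_sub, smul_comm]
      rw [Finset.sum_congr rfl h2, Finset.sum_sub_distrib, ← Finset.smul_sum, smul_sub]
      congr 1
      have h5 := congrArg Subtype.val hb
      rw [Submodule.coe_sum] at h5
      rw [← Submodule.coe_smul, ← h5]
      refine Finset.sum_congr rfl fun i _ => ?_
      rw [← DL_iter T δ L]
      rfl
  · intro x hx y hy hxy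
    obtain ⟨v, hv, rfl⟩ := Finset.mem_image.1 hx
    obtain ⟨w, hw, rfl⟩ := Finset.mem_image.1 hy
    exact hquot v hv w hw fun h => hxy (by rw [h])

end Pool.Agent.Helper39.RP
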