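import Pool.Agent.Helper51.RP.Goals2

/-!
# Project RP, S_SIG, part A: estimates for the logarithm
-/

namespace Pool.Agent.Helper39.RP

open NumberField Polynomial Module Pool.Agent.Helper51.SigLeo
open Pool.Agent.Helper51.RP

section log

variable {p : ℕ} [Fact p.Prime] {k : Type} [NormedField k] [NormedAlgebra ℚ_[p] k]

theorem two_le_p (p : ℕ) [Fact p.Prime] : (2 : ℝ) ≤ p := by
  exact_mod_cast (Fact.out : p.Prime).two_le

theorem norm_nat_k (n : ℕ) : ‖(n : k)‖ = ‖(n : ℚ_[p])‖ := by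
  have h := norm_algebraMap' k (n : ℚ_[p])
  rwa [map_natCast] at h

theorem norm_p_k : ‖(p : k)‖ = (p : ℝ)⁻¹ := by
  rw [norm_nat_k (p := p), Padic.norm_p]

variable (p) in
include p in
theorem norm_nat_le_one (n : ℕ) : ‖(n : k)‖ ≤ 1 := by
  rw [norm_nat_k (p := p)]
  exact_mod_cast Padic.norm_int_le_one (p := p) (n : ℤ)

/-- `‖i + 1‖ ≥ p^(-i)`. -/
theorem norm_succ_ge (i : ℕ) : ((p : ℝ)⁻¹) ^ i ≤ ‖((i : k) + 1)‖ := by
  have h2 := (Fact.out : p.Prime).two_le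
  have h0 : ((i : k) + 1) = ((i + 1 : ℕ) : k) := by push_cast; ring
  rw [h0, norm_nat_k (p := p)]
  by_contra hlt
  push Not at hlt
  have h1 : ‖(((i + 1 : ℕ) : ℤ) : ℚ_[p])‖ < (p : ℝ) ^ (-(i : ℤ)) := by
    rw [zpow_neg, zpow_natCast, ← inv_pow]
    exact_mod_cast hlt
  rw [Padic.norm_lt_pow_iff_norm_le_pow_sub_one] at h1
  have h3 : (-(i : ℤ) - 1) = -((i + 1 : ℕ) : ℤ) := by push_cast; ring
  rw [h3] at h1
  have h4 := (Padic.norm_int_le_pow_iff_dvd _ _).1 h1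
  have h5 : p ^ (i + 1) ∣ i + 1 := by exact_mod_cast h4
  have h6 := Nat.le_of_dvd (Nat.succ_pos i) h5
  have h7 : i + 1 < p ^ (i + 1) := Nat.lt_pow_self (by omega)
  omega

variable (p) in
include p in
theorem natsucc_ne_zero (i : ℕ) : ((i : k) + 1) ≠ 0 := by
  intro h
  have h1 := norm_succ_ge (p := p) (k := k) i
  rw [h, norm_zero] at h1
  have h2 : (0 : ℝ) < ((p : ℝ)⁻¹) ^ i := by
    have := two_le_p p
    positivity
  linarith

/-- The size of a term of the logarithm series. -/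
theorem term_le (x : k) (i : ℕ) :
    ‖(-1) ^ i * x ^ (i + 1) / ((i : k) + 1)‖ ≤ ‖x‖ * (‖x‖ * p) ^ i := by
  have hp := two_le_p p
  rw [norm_div, norm_mul, norm_pow, norm_neg, norm_one, one_pow, one_mul, norm_pow]
  have h1 := norm_succ_ge (p := p) (k := k) i
  have h2 : (0 : ℝ) < ((p : ℝ)⁻¹) ^ i := by positivity
  rw [div_le_iff₀ (lt_of_lt_of_le h2 h1)]
  have h3 : ‖x‖ * (‖x‖ * p) ^ i * ((p : ℝ)⁻¹) ^ i = ‖x‖ ^ (i + 1) := by
    have h4 : (p : ℝ) ^ i * ((p : ℝ)⁻¹) ^ i = 1 := by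
      rw [← mul_pow, mul_inv_cancel₀ (by positivity), one_pow]
    calc ‖x‖ * (‖x‖ * p) ^ i * ((p : ℝ)⁻¹) ^ i
        = ‖x‖ * ‖x‖ ^ i * ((p : ℝ) ^ i * ((p : ℝ)⁻¹) ^ i) := by rw [mul_pow]; ring
      _ = ‖x‖ ^ (i + 1) := by rw [h4]; ring
  rw [← h3]
  exact mul_le_mul_of_nonneg_left h1 (by positivity)

variable [IsUltrametricDist k]

theorem norm_hasSum_le {f : ℕ → k} {s : k} (h : HasSum f s) {C : ℝ} (hC : 0 ≤ C)
    (hf : ∀ i, ‖f i‖ ≤ C) : ‖s‖ ≤ C := by
  have h1 := h.tendsto_sum_nat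
  refine le_of_tendsto' h1.norm fun n => ?_
  exact IsUltrametricDist.norm_sum_le_of_forall_le_of_nonneg hC fun i _ => hf i

theorem log_le (L : IwasawaLog p k) (u : kˣ) (hu : ‖(u : k) - 1‖ ≤ (p : ℝ)⁻¹) :
    ‖L.toFun u‖ ≤ ‖(u : k) - 1‖ := by
  have hp := two_le_p p
  have h1 : ‖(u : k) - 1‖ < 1 := lt_of_le_of_lt hu (inv_lt_one_of_one_lt₀ (by linarith))
  refine norm_hasSum_le (L.hasSum u h1) (norm_nonneg _) fun i => ?_
  refine (term_le (p := p) _ i).trans ?_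
  have h2 : ‖(u : k) - 1‖ * p ≤ 1 := by
    calc _ ≤ (p : ℝ)⁻¹ * p := by gcongr
      _ = 1 := inv_mul_cancel₀ (by positivity)
  calc _ ≤ ‖(u : k) - 1‖ * 1 := by
        gcongr
        exact pow_le_one₀ (by positivity) h2
    _ = _ := mul_one _

/-- The logarithm is the identity to first order. -/
theorem log_sub_le (L : IwasawaLog p k) (u : kˣ) (hu : ‖(u : k) - 1‖ ≤ (p : ℝ)⁻¹) :
    ‖L.toFun u - ((u : k) - 1)‖ ≤ p * ‖(u : k) - 1‖ ^ 2 := by
  have hp := two_le_p p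
  have h1 : ‖(u : k) - 1‖ < 1 := lt_of_le_of_lt hu (inv_lt_one_of_one_lt₀ (by linarith))
  have h0 := L.hasSum u h1
  have h3 : HasSum (fun n : ℕ ↦ (-1) ^ (n + 1) * ((u : k) - 1) ^ (n + 1 + 1) /
      (((n + 1 : ℕ) : k) + 1)) (L.toFun u - ((u : k) - 1)) := by
    have h4 := (hasSum_nat_add_iff' 1).2 h0
    simpa using h4
  refine norm_hasSum_le h3 (by positivity) fun i => ?_
  refine (term_le (p := p) _ (i + 1)).trans ?_
  have h2 : ‖(u : k) - 1‖ * p ≤ 1 := by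
    calc _ ≤ (p : ℝ)⁻¹ * p := by gcongr
      _ = 1 := inv_mul_cancel₀ (by positivity)
  calc ‖(u : k) - 1‖ * (‖(u : k) - 1‖ * p) ^ (i + 1)
      = p * ‖(u : k) - 1‖ ^ 2 * (‖(u : k) - 1‖ * p) ^ i := by ring
    _ ≤ p * ‖(u : k) - 1‖ ^ 2 * 1 := by
        gcongr
        exact pow_le_one₀ (by positivity) h2
    _ = _ := mul_one _

end log

section basic

variable {p : ℕ} {k : Type} [NormedField k] (L : IwasawaLog p k)

theorem log_one : L.toFun 1 = 0 := by
  have h := L.map_mul 1 1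
  rw [one_mul] at h
  have : L.toFun 1 + 0 = L.toFun 1 + L.toFun 1 := by rw [add_zero]; exact h
  exact (add_left_cancel this).symm

theorem log_inv (u : kˣ) : L.toFun u⁻¹ = - L.toFun u := by
  have h := L.map_mul u u⁻¹
  rw [mul_inv_cancel, log_one] at h
  exact (neg_eq_of_add_eq_zero_right h.symm).symm

theorem log_pow (u : kˣ) (n : ℕ) : L.toFun (u ^ n) = n • L.toFun u := by
  induction n with
  | zero => rw [pow_zero, log_one, zero_smul]
  | succ n ih => rw [pow_succ, L.map_mul, ih, succ_nsmul]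

variable {M : Type} [Field M]

/-- The elements of absolute value one at all places of `T`. -/
def UT (T : Set (M →+* k)) : Subgroup Mˣ where
  carrier := {x | ∀ τ ∈ T, ‖τ (x : M)‖ = 1}
  mul_mem' := by
    intro a b ha hb τ hτ
    rw [Units.val_mul, map_mul, norm_mul, ha τ hτ, hb τ hτ, one_mul]
  one_mem' := by
    intro τ _
    rw [Units.val_one, map_one, norm_one]
  inv_mem' := by
    intro a ha τ hτ
    rw [Units.val_inv_eq_inv_val, map_inv₀, norm_inv, ha τ hτ, inv_one]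

theorem mem_UT {T : Set (M →+* k)} {x : Mˣ} : x ∈ UT T ↔ ∀ τ ∈ T, ‖τ (x : M)‖ = 1 := Iff.rfl

/-- The vector of the logarithms. -/
def ell (T : Set (M →+* k)) (x : Mˣ) : T → k := fun τ => L.toFun (Units.map (τ.1 : M →* k) x)

theorem ell_mul (T : Set (M →+* k)) (x y : Mˣ) : ell L T (x * y) = ell L T x + ell L T y := by
  funext τ
  change L.toFun _ = L.toFun _ + L.toFun _
  rw [map_mul, L.map_mul]

theorem ell_one (T : Set (M →+* k)) : ell L T 1 = 0 := by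
  funext τ
  change L.toFun _ = 0
  rw [map_one, log_one]

theorem ell_inv (T : Set (M →+* k)) (x : Mˣ) : ell L T x⁻¹ = - ell L T x := by
  funext τ
  change L.toFun _ = - L.toFun _
  rw [map_inv, log_inv]

theorem ell_pow (T : Set (M →+* k)) (x : Mˣ) (n : ℕ) : ell L T (x ^ n) = n • ell L T x := by
  funext τ
  change L.toFun _ = n • L.toFun _
  rw [map_pow, log_pow]

end basic

end Pool.Agent.Helper39.RP
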