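import Pool.Agent.Helper43.RP.Goals
import Mathlib

/-!
# Project RP (MP_f5847d_nt), packet GREED: greedy chain
-/

set_option autoImplicit false

namespace Pool.Agent.Helper39.RP.GREED

open Pool.Agent.Helper43.RP

theorem aux (K : ℕ) (δ : ℝ) (hδ : 0 ≤ δ) : ∀ (c : ℕ) (E : Finset ℕ), E.card = c →
    (∀ x ∈ E, ∀ W ⊆ E, (∀ y ∈ W, x ≤ y ∧ Real.log y ≤ (1 + δ) * Real.log x) → W.card ≤ K) →
    ∃ (N : ℕ) (n : ℕ → ℕ), E.card ≤ K * N ∧ (∀ i, i < N → n i ∈ E) ∧
      ∀ i, i + 1 < N → (1 + δ) * Real.log (n i) ≤ Real.log (n (i + 1)) := by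
  classical
  intro c
  induction c using Nat.strong_induction_on with
  | _ c ih =>
    intro E hc hE
    rcases E.eq_empty_or_nonempty with rfl | hne
    · exact ⟨0, fun _ => 0, by simp, fun i hi => absurd hi (Nat.not_lt_zero _),
        fun i hi => absurd hi (Nat.not_lt_zero _)⟩
    · obtain ⟨x, hx⟩ : ∃ x, x = E.min' hne := ⟨_, rfl⟩
      have hxE : x ∈ E := by
        rw [hx]
        exact E.min'_mem hne
      have hxle : ∀ y ∈ E, x ≤ y := fun y hy => by
        rw [hx]
        exact E.min'_le y hy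
      have hself : ¬ (1 + δ) * Real.log x < Real.log x := by
        rw [not_lt, add_mul, one_mul]
        exact le_add_of_nonneg_right (mul_nonneg hδ (Real.log_natCast_nonneg x))
      obtain ⟨E', hE'⟩ : ∃ E', E' = E.filter fun y : ℕ => (1 + δ) * Real.log x < Real.log y :=
        ⟨_, rfl⟩
      have hsub : E' ⊆ E := by
        rw [hE']
        exact Finset.filter_subset _ _
      have hW : (E.filter fun y : ℕ => ¬ (1 + δ) * Real.log x < Real.log y).card ≤ K :=
        hE x hxE _ (Finset.filter_subset _ _) fun y hy =>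
          ⟨hxle y (Finset.mem_filter.1 hy).1, not_lt.1 (Finset.mem_filter.1 hy).2⟩
      have hcard : E'.card + (E.filter fun y : ℕ => ¬ (1 + δ) * Real.log x < Real.log y).card =
          E.card := by
        rw [hE']
        exact Finset.card_filter_add_card_filter_not (s := E) _
      have hlt : E'.card < c := by
        have h0 : x ∈ E.filter fun y : ℕ => ¬ (1 + δ) * Real.log x < Real.log y :=
          Finset.mem_filter.2 ⟨hxE, hself⟩
        have := Finset.card_pos.2 ⟨x, h0⟩
        omega
      obtain ⟨N', n', h1, h2, h3⟩ := ih E'.card hlt E' rfl fun y hy W hWE' hWy =>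
        hE y (hsub hy) W (hWE'.trans hsub) hWy
      refine ⟨N' + 1, fun i => if i = 0 then x else n' (i - 1), ?_, ?_, ?_⟩
      · rw [Nat.mul_succ]
        omega
      · intro i hi
        by_cases h0 : i = 0
        · simp only [h0, if_true]
          exact hxE
        · simp only [h0, if_false]
          exact hsub (h2 (i - 1) (by omega))
      · intro i hi
        by_cases h0 : i = 0
        · subst h0
          simp only [if_true, Nat.zero_add, one_ne_zero, if_false]
          have h4 := h2 0 (by omega)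
          rw [hE', Finset.mem_filter] at h4
          exact h4.2.le
        · have h5 : i + 1 ≠ 0 := by omega
          simp only [h0, h5, if_false]
          have h6 := h3 (i - 1) (by omega)
          have h7 : i - 1 + 1 = i + 1 - 1 := by omega
          rw [h7] at h6
          exact h6

/-- the greedy chain, for `0 ≤ δ` -/
theorem greed (K : ℕ) (δ : ℝ) (E : Finset ℕ) (hδ : 0 ≤ δ)
    (hE : ∀ x ∈ E, ∀ W ⊆ E, (∀ y ∈ W, x ≤ y ∧ Real.log y ≤ (1 + δ) * Real.log x) → W.card ≤ K) :
    ∃ (N : ℕ) (n : ℕ → ℕ), E.card ≤ K * N ∧ (∀ i, i < N → n i ∈ E) ∧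
      ∀ i, i + 1 < N → (1 + δ) * Real.log (n i) ≤ Real.log (n (i + 1)) :=
  aux K δ hδ E.card E rfl hE

theorem t : GREED := fun K δ E hδ hE => greed K δ E hδ hE

end Pool.Agent.Helper39.RP.GREED
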