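import Pool.Agent.Helper39.RP.SigA

/-!
# Project RP, S_SIG, part B: the logarithms lie in a lattice
-/

set_option linter.unusedSectionVars false

namespace Pool.Agent.Helper39.RP

open NumberField Polynomial Module Pool.Agent.Helper51.SigLeo
open Pool.Agent.Helper51.RP

section pows

variable {k : Type} [NormedField k] [IsUltrametricDist k]

theorem norm_sub_le_max' (a b : k) : ‖a - b‖ ≤ max ‖a‖ ‖b‖ := by
  rw [sub_eq_add_neg, ← norm_neg b]
  exact IsUltrametricDist.norm_add_le_max a (-b)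

theorem norm_le_one_of_near {u : k} {c : ℝ} (hc : c ≤ 1) (hu : ‖u - 1‖ ≤ c) : ‖u‖ ≤ 1 := by
  have h : u = (u - 1) + 1 := by ring
  rw [h]
  refine (IsUltrametricDist.norm_add_le_max _ _).trans ?_
  rw [norm_one]
  exact max_le (hu.trans hc) le_rfl

theorem near_pow {u : k} {c : ℝ} (hc : c ≤ 1) (hu : ‖u - 1‖ ≤ c) (r : ℕ) :
    ‖u ^ r - 1‖ ≤ c := by
  have hc0 : 0 ≤ c := (norm_nonneg _).trans hu
  induction r with
  | zero => rw [pow_zero, sub_self, norm_zero]; exact hc0
  | succ r ih =>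
    have h : u ^ (r + 1) - 1 = u ^ r * (u - 1) + (u ^ r - 1) := by ring
    rw [h]
    refine (IsUltrametricDist.norm_add_le_max _ _).trans (max_le ?_ ih)
    rw [norm_mul, norm_pow]
    calc _ ≤ 1 * c := by
          refine mul_le_mul (pow_le_one₀ (norm_nonneg _) (norm_le_one_of_near hc hu)) hu
            (norm_nonneg _) zero_le_one
      _ = c := one_mul c

end pows

section lattice

variable {p : ℕ} [Fact p.Prime] {k : Type} [NormedField k] [NormedAlgebra ℚ_[p] k]
  [IsUltrametricDist k] {M : Type} [Field M] [NumberField M] (T : Set (M →+* k)) [Fintype T]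

/-- The vector of the values of the embeddings in `T`. -/
def ev (T : Set (M →+* k)) : M →+ (T → k) where
  toFun b := fun τ => τ.1 b
  map_zero' := by funext τ; exact map_zero _
  map_add' := by intro a b; funext τ; exact map_add _ _ _

theorem ev_apply (T : Set (M →+* k)) (b : M) (τ : T) : ev T b τ = τ.1 b := rfl

variable (p)

/-- The `ℚ_p`-span of the values. -/
noncomputable def WW (T : Set (M →+* k)) : Submodule ℚ_[p] (T → k) :=
  Submodule.span ℚ_[p] (Set.range (ev T))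

include p in
theorem charZero_k : CharZero k := charZero_of_injective_algebraMap (algebraMap ℚ_[p] k).injective

theorem ev_smul (q : ℚ) (b : M) : ev T (q • b) = (q : ℚ_[p]) • ev T b := by
  funext τ
  have := charZero_k p (k := k)
  rw [Pi.smul_apply, ev_apply, ev_apply, Rat.smul_def, map_mul, map_ratCast, Algebra.smul_def,
    map_ratCast]

theorem WW_fin : FiniteDimensional ℚ_[p] (WW p T) := by
  have h : WW p T ≤ Submodule.span ℚ_[p] (Set.range fun i => ev T (Module.finBasis ℚ M i)) := by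
    unfold WW
    rw [Submodule.span_le]
    rintro _ ⟨b, rfl⟩
    rw [← (Module.finBasis ℚ M).sum_repr b, map_sum]
    refine Submodule.sum_mem _ fun i _ => ?_
    rw [ev_smul p]
    exact Submodule.smul_mem _ _ (Submodule.subset_span ⟨i, rfl⟩)
  have h2 : FiniteDimensional ℚ_[p]
      (Submodule.span ℚ_[p] (Set.range fun i => ev T (Module.finBasis ℚ M i))) :=
    FiniteDimensional.span_of_finite _ (Set.finite_range _)
  exact Submodule.finiteDimensional_of_le h

variable {p}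

theorem ell_mem_of_near (L : IwasawaLog p k) (x : Mˣ) (hx : ∀ τ ∈ T, ‖τ (x : M) - 1‖ < 1) :
    ell L T x ∈ WW p T := by
  have hfin := WW_fin p T
  have hclosed : IsClosed (WW p T : Set (T → k)) := Submodule.closed_of_finiteDimensional _
  have hlim : Filter.Tendsto (fun n : ℕ => ev T (∑ i ∈ Finset.range n,
      (-1) ^ i * ((x : M) - 1) ^ (i + 1) / ((i : M) + 1))) Filter.atTop (nhds (ell L T x)) := by
    rw [tendsto_pi_nhds]
    intro τ
    have h := (L.hasSum (Units.map (τ.1 : M →* k) x) (hx τ.1 τ.2)).tendsto_sum_nat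
    refine h.congr fun n => ?_
    rw [ev_apply, map_sum]
    refine Finset.sum_congr rfl fun i _ => ?_
    simp only [map_div₀, map_mul, map_pow, map_neg, map_one, map_sub, map_add, map_natCast,
      Units.coe_map, MonoidHom.coe_coe]
  exact hclosed.mem_of_tendsto hlim (Filter.Eventually.of_forall fun n =>
    Submodule.subset_span ⟨_, rfl⟩)

/-- A power of every unit is near one. -/
theorem exists_q (p : ℕ) [Fact p.Prime] [NormedAlgebra ℚ_[p] k] :
    ∃ q : ℕ, 0 < q ∧ ∀ x ∈ UT T, ∀ τ ∈ T, ‖τ ((x ^ q : Mˣ) : M) - 1‖ ≤ (p : ℝ)⁻¹ := by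
  classical
  have hfin := WW_fin p T
  have hprop : ProperSpace (WW p T) := FiniteDimensional.proper ℚ_[p] (WW p T)
  have hp := two_le_p p
  have hpi : (0 : ℝ) < (p : ℝ)⁻¹ := by positivity
  have hpi1 : (p : ℝ)⁻¹ ≤ 1 := inv_le_one_of_one_le₀ (by linarith)
  have hcomp : IsCompact (Metric.closedBall (0 : WW p T) 1) := isCompact_closedBall 0 1
  obtain ⟨t, ht, hcov⟩ := Metric.totallyBounded_iff.1 hcomp.totallyBounded (p : ℝ)⁻¹ hpi
  obtain ⟨t, rfl⟩ := ht.exists_finset_coe
  refine ⟨t.card.factorial, Nat.factorial_pos _, fun x hx => ?_⟩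
  have hmem : ∀ i : ℕ, ∃ y ∈ t, ∀ τ : T, ‖τ.1 ((x : M) ^ i) - (y : T → k) τ‖ < (p : ℝ)⁻¹ := by
    intro i
    have h1 : ev T ((x : M) ^ i) ∈ WW p T := Submodule.subset_span ⟨_, rfl⟩
    have h2 : (⟨ev T ((x : M) ^ i), h1⟩ : WW p T) ∈ Metric.closedBall (0 : WW p T) 1 := by
      rw [mem_closedBall_zero_iff]
      change ‖ev T ((x : M) ^ i)‖ ≤ 1
      rw [pi_norm_le_iff_of_nonneg zero_le_one]
      intro τ
      rw [ev_apply, map_pow, norm_pow, hx τ.1 τ.2, one_pow]
    have h3 := hcov h2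
    rw [Set.mem_iUnion₂] at h3
    obtain ⟨y, hy, h4⟩ := h3
    refine ⟨y, hy, fun τ => ?_⟩
    rw [Metric.mem_ball, dist_eq_norm] at h4
    refine lt_of_le_of_lt ?_ h4
    exact norm_le_pi_norm (ev T ((x : M) ^ i) - (y : T → k)) τ
  choose Y hY hYn using hmem
  obtain ⟨i, hi, j, hj, hij, hYij⟩ := Finset.exists_ne_map_eq_of_card_lt_of_maps_to
    (s := Finset.range (t.card + 1)) (t := t) (by rw [Finset.card_range]; omega)
    (f := Y) (fun i _ => hY i)
  -- without loss of generality i < j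
  have key : ∀ i j : ℕ, i < j → j < t.card + 1 → Y i = Y j →
      ∀ τ ∈ T, ‖τ ((x ^ t.card.factorial : Mˣ) : M) - 1‖ ≤ (p : ℝ)⁻¹ := by
    intro i j hij hj hY τ hτ
    have h1 : ‖τ (x : M) ^ (j - i) - 1‖ ≤ (p : ℝ)⁻¹ := by
      have h2 := hYn i ⟨τ, hτ⟩
      have h3 := hYn j ⟨τ, hτ⟩
      rw [hY] at h2
      have h4 : ‖τ ((x : M) ^ j) - τ ((x : M) ^ i)‖ ≤ (p : ℝ)⁻¹ := by
        have h5 : τ ((x : M) ^ j) - τ ((x : M) ^ i) =
            (τ ((x : M) ^ j) - ((Y j : WW p T) : T → k) ⟨τ, hτ⟩) -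
            (τ ((x : M) ^ i) - ((Y j : WW p T) : T → k) ⟨τ, hτ⟩) := by ring
        rw [h5]
        exact (norm_sub_le_max' _ _).trans (max_le h3.le h2.le)
      have h6 : τ ((x : M) ^ j) - τ ((x : M) ^ i) =
          τ (x : M) ^ i * (τ (x : M) ^ (j - i) - 1) := by
        rw [map_pow, map_pow, mul_sub, ← pow_add, mul_one]
        congr 2
        omega
      rw [h6, norm_mul, norm_pow, hx τ hτ, one_pow, one_mul] at h4
      exact h4
    obtain ⟨r, hr⟩ : (j - i) ∣ t.card.factorial := Nat.dvd_factorial (by omega) (by omega)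
    rw [Units.val_pow_eq_pow_val, map_pow, hr, pow_mul]
    exact near_pow hpi1 h1 r
  rw [Finset.mem_range] at hi hj
  rcases lt_or_gt_of_ne hij with h | h
  · exact key i j h hj hYij
  · exact key j i h hi hYij.symm

/-- The logarithms lie in `W` and are bounded. -/
theorem ell_bdd (L : IwasawaLog p k) :
    ∃ C : ℝ, ∀ x ∈ UT T, ell L T x ∈ WW p T ∧ ‖ell L T x‖ ≤ C := by
  obtain ⟨q, hq, h⟩ := exists_q T p
  have hp := two_le_p p
  have hpi1 : (p : ℝ)⁻¹ < 1 := inv_lt_one_of_one_lt₀ (by linarith)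
  have hq0 : (q : ℚ_[p]) ≠ 0 := by exact_mod_cast hq.ne'
  refine ⟨‖(q : ℚ_[p])⁻¹‖ * 1, fun x hx => ?_⟩
  have h1 : ell L T (x ^ q) ∈ WW p T :=
    ell_mem_of_near T L _ fun τ hτ => lt_of_le_of_lt (h x hx τ hτ) hpi1
  have h2 : ell L T x = (q : ℚ_[p])⁻¹ • ell L T (x ^ q) := by
    rw [ell_pow, ← Nat.cast_smul_eq_nsmul ℚ_[p], smul_smul, inv_mul_cancel₀ hq0, one_smul]
  rw [h2]
  refine ⟨Submodule.smul_mem _ _ h1, ?_⟩
  rw [norm_smul]
  refine mul_le_mul_of_nonneg_left ?_ (norm_nonneg _)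
  rw [pi_norm_le_iff_of_nonneg zero_le_one]
  intro τ
  have h3 := h x hx τ.1 τ.2
  have h4 := log_le L (Units.map (τ.1 : M →* k) (x ^ q)) h3
  exact h4.trans (h3.trans hpi1.le)

end lattice

end Pool.Agent.Helper39.RP
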