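import Pool.Agent.Helper39.RP.SigB

/-!
# Project RP, S_SIG, part C: the lattice of the logarithms
-/

set_option linter.unusedSectionVars false

namespace Pool.Agent.Helper39.RP

open NumberField Polynomial Module Pool.Agent.Helper51.SigLeo
open Pool.Agent.Helper51.RP

section lattice

variable {p : ℕ} [Fact p.Prime] {k : Type} [NormedField k] [NormedAlgebra ℚ_[p] k]
  [IsUltrametricDist k] {M : Type} [Field M] [NumberField M] (T : Set (M →+* k)) [Fintype T]

/-- The structure of a `ℤ_p`-module. -/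
@[reducible]
noncomputable def zpMod (p : ℕ) [Fact p.Prime] (V : Type) [AddCommGroup V] [Module ℚ_[p] V] :
    Module ℤ_[p] V := Module.compHom V (algebraMap ℤ_[p] ℚ_[p])

attribute [local instance] zpMod

theorem zp_smul {V : Type} [AddCommGroup V] [Module ℚ_[p] V] (c : ℤ_[p]) (v : V) :
    c • v = (c : ℚ_[p]) • v := rfl

/-- The lattice of the logarithms. -/
noncomputable def Lam (L : IwasawaLog p k) : Submodule ℤ_[p] (T → k) :=
  Submodule.span ℤ_[p] (ell L T '' (UT T : Set Mˣ))

theorem ell_mem_Lam (L : IwasawaLog p k) {x : Mˣ} (hx : x ∈ UT T) : ell L T x ∈ Lam T L :=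
  Submodule.subset_span ⟨x, hx, rfl⟩

theorem Lam_fg (L : IwasawaLog p k) : (Lam T L).FG := by
  have hfin := WW_fin p T
  have hp := two_le_p p
  obtain ⟨C, hC⟩ := ell_bdd T L
  set b := Module.finBasis ℚ_[p] (WW p T) with hb
  obtain ⟨D, hD0, hD⟩ : ∃ D : ℝ, 0 ≤ D ∧ ∀ w : WW p T, ∀ i, ‖b.repr w i‖ ≤ D * ‖w‖ := by
    refine ⟨‖b.equivFunL.toContinuousLinearMap‖, ContinuousLinearMap.opNorm_nonneg _, fun w i => ?_⟩
    have h1 := b.equivFunL.toContinuousLinearMap.le_opNorm w
    refine le_trans ?_ h1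
    exact norm_le_pi_norm (b.equivFunL.toContinuousLinearMap w) i
  obtain ⟨N, hN⟩ : ∃ N : ℕ, D * C ≤ (p : ℝ) ^ N := by
    obtain ⟨N, hN⟩ := pow_unbounded_of_one_lt (D * C) (show (1 : ℝ) < p by linarith)
    exact ⟨N, hN.le⟩
  have hp0 : (p : ℚ_[p]) ≠ 0 := by
    exact_mod_cast (Fact.out : p.Prime).ne_zero
  set N' : Submodule ℤ_[p] (T → k) := Submodule.span ℤ_[p]
    (Set.range fun i => ((p : ℚ_[p]) ^ N)⁻¹ • ((b i : WW p T) : T → k)) with hN'
  have hfg : N'.FG := Submodule.fg_span (Set.finite_range _)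
  have hle : Lam T L ≤ N' := by
    unfold Lam
    rw [Submodule.span_le]
    rintro _ ⟨x, hx, rfl⟩
    obtain ⟨h1, h2⟩ := hC x hx
    set w : WW p T := ⟨ell L T x, h1⟩ with hw
    have h3 : ell L T x = ∑ i, b.repr w i • ((b i : WW p T) : T → k) := by
      have h4 := congrArg (Subtype.val) (b.sum_repr w)
      rw [← hw] at *
      rw [Submodule.coe_sum] at h4
      simpa using h4.symm
    have hw2 : ‖w‖ ≤ C := h2
    have hint : ∀ i, ‖b.repr w i * (p : ℚ_[p]) ^ N‖ ≤ 1 := by
      intro i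
      rw [norm_mul, Padic.norm_p_pow, zpow_neg, zpow_natCast]
      have h5 : ‖b.repr w i‖ ≤ (p : ℝ) ^ N := by
        refine (hD w i).trans (le_trans ?_ hN)
        exact mul_le_mul_of_nonneg_left hw2 hD0
      calc _ ≤ (p : ℝ) ^ N * ((p : ℝ) ^ N)⁻¹ := by gcongr
        _ = 1 := mul_inv_cancel₀ (by positivity)
    change ell L T x ∈ N'
    rw [h3]
    refine Submodule.sum_mem _ fun i _ => ?_
    obtain ⟨c, hc⟩ : ∃ c : ℤ_[p], (c : ℚ_[p]) = b.repr w i * (p : ℚ_[p]) ^ N :=
      ⟨⟨_, hint i⟩, rfl⟩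
    have h6 : b.repr w i • ((b i : WW p T) : T → k) =
        c • (((p : ℚ_[p]) ^ N)⁻¹ • ((b i : WW p T) : T → k)) := by
      rw [zp_smul, smul_smul, hc, mul_assoc, mul_inv_cancel₀ (pow_ne_zero _ hp0), mul_one]
    rw [h6]
    exact Submodule.smul_mem _ _ (Submodule.subset_span ⟨i, rfl⟩)
  have : IsNoetherian ℤ_[p] N' := isNoetherian_of_fg_of_noetherian _ hfg
  exact (isNoetherian_submodule.1 this) _ hle

/-- The lattice is contained in the closure of the group of the logarithms. -/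
theorem Lam_approx (L : IwasawaLog p k) {v : T → k} (hv : v ∈ Lam T L) {ε : ℝ} (hε : 0 < ε) :
    ∃ x ∈ UT T, ‖v - ell L T x‖ < ε := by
  have key : Lam T L ≤
      { carrier := {v | ∀ ε : ℝ, 0 < ε → ∃ x ∈ UT T, ‖v - ell L T x‖ < ε}
        zero_mem' := fun ε hε => ⟨1, (UT T).one_mem, by rw [ell_one, sub_zero, norm_zero]; exact hε⟩
        add_mem' := by
          intro a b ha hb ε hε
          obtain ⟨x, hx, hx'⟩ := ha (ε / 2) (by positivity)
          obtain ⟨y, hy, hy'⟩ := hb (ε / 2) (by positivity)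
          refine ⟨x * y, (UT T).mul_mem hx hy, ?_⟩
          have h : a + b - ell L T (x * y) = (a - ell L T x) + (b - ell L T y) := by
            rw [ell_mul]; abel
          rw [h]
          calc _ ≤ ‖a - ell L T x‖ + ‖b - ell L T y‖ := norm_add_le _ _
            _ < ε := by linarith
        smul_mem' := by
          intro c a ha ε hε
          -- approximate `c` by a natural number
          have hden := PadicInt.denseRange_natCast (p := p)
          obtain ⟨n, hn⟩ := Metric.denseRange_iff.1 hden c (ε / (2 * (‖a‖ + 1))) (by positivity)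
          rw [dist_eq_norm] at hn
          obtain ⟨x, hx, hx'⟩ := ha (ε / 2) (by positivity)
          refine ⟨x ^ n, (UT T).pow_mem hx n, ?_⟩
          have h : c • a - ell L T (x ^ n) =
              ((c - (n : ℤ_[p]) : ℤ_[p]) : ℚ_[p]) • a + (n : ℚ_[p]) • (a - ell L T x) := by
            rw [ell_pow, zp_smul, PadicInt.coe_sub, PadicInt.coe_natCast, sub_smul, smul_sub,
              ← Nat.cast_smul_eq_nsmul ℚ_[p]]
            abel
          rw [h]
          have h1 : ‖((c - (n : ℤ_[p]) : ℤ_[p]) : ℚ_[p]) • a‖ ≤ ε / 2 := by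
            rw [norm_smul]
            have h2 : ‖((c - (n : ℤ_[p]) : ℤ_[p]) : ℚ_[p])‖ ≤ ε / (2 * (‖a‖ + 1)) := hn.le
            calc _ ≤ ε / (2 * (‖a‖ + 1)) * (‖a‖ + 1) := by
                  refine mul_le_mul h2 (by linarith) (norm_nonneg _) (by positivity)
              _ = ε / 2 := by field_simp
          have h3 : ‖(n : ℚ_[p]) • (a - ell L T x)‖ < ε / 2 := by
            rw [norm_smul]
            have h4 : ‖(n : ℚ_[p])‖ ≤ 1 := by
              exact_mod_cast Padic.norm_int_le_one (p := p) (n : ℤ)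
            calc _ ≤ 1 * ‖a - ell L T x‖ := by
                  exact mul_le_mul_of_nonneg_right h4 (norm_nonneg _)
              _ < ε / 2 := by rw [one_mul]; exact hx'
          calc _ ≤ _ := norm_add_le _ _
            _ < ε := by linarith } := by
    unfold Lam
    rw [Submodule.span_le]
    rintro _ ⟨x, hx, rfl⟩ ε hε
    exact ⟨x, hx, by rw [sub_self, norm_zero]; exact hε⟩
  exact key hv ε hε

/-- Modulo `p` every element of the lattice is a logarithm. -/
theorem Lam_mod (L : IwasawaLog p k) {v : T → k} (hv : v ∈ Lam T L) :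
    ∃ x ∈ UT T, ∃ u ∈ Lam T L, v = ell L T x + (p : ℤ_[p]) • u := by
  have key : Lam T L ≤
      { carrier := {v | ∃ x ∈ UT T, ∃ u ∈ Lam T L, v = ell L T x + (p : ℤ_[p]) • u}
        zero_mem' := ⟨1, (UT T).one_mem, 0, (Lam T L).zero_mem, by
          rw [ell_one, smul_zero, add_zero]⟩
        add_mem' := by
          rintro a b ⟨x, hx, u, hu, rfl⟩ ⟨y, hy, w, hw, rfl⟩
          refine ⟨x * y, (UT T).mul_mem hx hy, u + w, (Lam T L).add_mem hu hw, ?_⟩
          rw [ell_mul, smul_add]; abel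
        smul_mem' := by
          rintro c a ⟨x, hx, u, hu, rfl⟩
          obtain ⟨n, c', hc⟩ : ∃ (n : ℕ) (c' : ℤ_[p]), c = n + p * c' := by
            have h1 := PadicInt.appr_spec 1 c
            rw [pow_one, Ideal.mem_span_singleton] at h1
            obtain ⟨c', hc'⟩ := h1
            refine ⟨c.appr 1, c', ?_⟩
            rw [← hc']; ring
          refine ⟨x ^ n, (UT T).pow_mem hx n, c' • ell L T x + c • u,
            (Lam T L).add_mem ((Lam T L).smul_mem _ (ell_mem_Lam T L hx))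
              ((Lam T L).smul_mem _ hu), ?_⟩
          rw [ell_pow, smul_add, smul_add, ← add_assoc, smul_smul, smul_smul, smul_smul,
            mul_comm c (p : ℤ_[p])]
          congr 1
          conv_lhs => rw [hc]
          rw [add_smul, Nat.cast_smul_eq_nsmul] } := by
    unfold Lam
    rw [Submodule.span_le]
    rintro _ ⟨x, hx, rfl⟩
    exact ⟨x, hx, 0, (Lam T L).zero_mem, by rw [smul_zero, add_zero]⟩
  exact key hv

/-- The multiples of `p` in the lattice form a closed set. -/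
theorem pLam_closed (L : IwasawaLog p k) :
    IsClosed {v : T → k | ∃ u ∈ Lam T L, v = (p : ℤ_[p]) • u} := by
  obtain ⟨s, hs⟩ := Lam_fg T L
  have hcont : Continuous (fun c : (s → ℤ_[p]) =>
      ∑ i : s, (((p : ℤ_[p]) * c i : ℤ_[p]) : ℚ_[p]) • (i : T → k)) := by
    refine continuous_finsetSum _ fun i _ => ?_
    have h1 : Continuous (fun c : (s → ℤ_[p]) => (((p : ℤ_[p]) * c i : ℤ_[p]) : ℚ_[p])) := by
      have h2 : Continuous (fun c : (s → ℤ_[p]) => (p : ℤ_[p]) * c i) :=
        continuous_const.mul (continuous_apply i)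
      exact continuous_subtype_val.comp h2
    exact h1.smul continuous_const
  have hrange : {v : T → k | ∃ u ∈ Lam T L, v = (p : ℤ_[p]) • u} =
      Set.range (fun c : (s → ℤ_[p]) =>
        ∑ i : s, (((p : ℤ_[p]) * c i : ℤ_[p]) : ℚ_[p]) • (i : T → k)) := by
    ext v
    constructor
    · rintro ⟨u, hu, rfl⟩
      rw [← hs, Submodule.mem_span_finset'] at hu
      obtain ⟨c, rfl⟩ := hu
      refine ⟨c, ?_⟩
      change ∑ i : s, (((p : ℤ_[p]) * c i : ℤ_[p]) : ℚ_[p]) • (i : T → k) = _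
      rw [Finset.smul_sum]
      refine Finset.sum_congr rfl fun i _ => ?_
      rw [smul_smul, zp_smul]
    · rintro ⟨c, rfl⟩
      refine ⟨∑ i : s, c i • (i : T → k), ?_, ?_⟩
      · rw [← hs]
        exact Submodule.sum_mem _ fun i _ => Submodule.smul_mem _ _
          (Submodule.subset_span i.2)
      · rw [Finset.smul_sum]
        refine Finset.sum_congr rfl fun i _ => ?_
        rw [smul_smul, zp_smul]
  rw [hrange]
  exact (isCompact_range hcont).isClosed

/-- The local condition for units. -/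
theorem locSig_iff (L : IwasawaLog p k) {z : Mˣ} (hz : z ∈ UT T) :
    LocSig L T z ↔ ∃ u ∈ Lam T L, ell L T z = (p : ℤ_[p]) • u := by
  have hp := two_le_p p
  have hpi : (0 : ℝ) < 1 / (p : ℝ) := by positivity
  have hpi1 : 1 / (p : ℝ) < 1 := by
    rw [div_lt_one (by positivity)]; linarith
  have hpsmul : ∀ (y : Mˣ), ell L T (y ^ p) = (p : ℤ_[p]) • ell L T y := by
    intro y
    rw [ell_pow, Nat.cast_smul_eq_nsmul]
  constructor
  · intro h
    have hcl := pLam_closed T L
    have hmem : ell L T z ∈ closure {v : T → k | ∃ u ∈ Lam T L, v = (p : ℤ_[p]) • u} := by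
      rw [Metric.mem_closure_iff]
      intro ε hε
      obtain ⟨N, hN⟩ := exists_pow_lt_of_lt_one hε hpi1
      obtain ⟨y, hy⟩ := h N
      have hyU : y ∈ UT T := by
        intro τ hτ
        have h1 := (hy τ hτ).1
        rw [Units.val_mul, Units.val_pow_eq_pow_val, map_mul, map_pow, norm_mul, norm_pow,
          hz τ hτ, one_mul] at h1
        exact (pow_eq_one_iff_of_nonneg (norm_nonneg _) (Fact.out : p.Prime).ne_zero).1 h1
      refine ⟨(p : ℤ_[p]) • ell L T y⁻¹, ⟨_, ell_mem_Lam T L ((UT T).inv_mem hyU), rfl⟩, ?_⟩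
      rw [dist_eq_norm]
      have h2 : ell L T z - (p : ℤ_[p]) • ell L T y⁻¹ = ell L T (z * y ^ p) := by
        rw [ell_mul, hpsmul, ell_inv, smul_neg, sub_neg_eq_add]
      rw [h2]
      refine lt_of_le_of_lt ?_ hN
      rw [pi_norm_le_iff_of_nonneg (by positivity)]
      intro τ
      exact (hy τ.1 τ.2).2
    rw [hcl.closure_eq] at hmem
    exact hmem
  · rintro ⟨u, hu, hzu⟩ N
    obtain ⟨x, hx, hx'⟩ := Lam_approx T L hu (ε := (1 / p : ℝ) ^ N) (by positivity)
    refine ⟨x⁻¹, fun τ hτ => ⟨?_, ?_⟩⟩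
    · exact (UT T).mul_mem hz ((UT T).pow_mem ((UT T).inv_mem hx) p) τ hτ
    · have h1 : ell L T (z * x⁻¹ ^ p) = (p : ℤ_[p]) • (u - ell L T x) := by
        rw [ell_mul, hpsmul, ell_inv, hzu, smul_neg, smul_sub, sub_eq_add_neg]
      have h2 : ‖ell L T (z * x⁻¹ ^ p)‖ ≤ (1 / p : ℝ) ^ N := by
        rw [h1, zp_smul, norm_smul]
        have h3 : ‖((p : ℤ_[p]) : ℚ_[p])‖ ≤ 1 := PadicInt.norm_le_one _
        calc _ ≤ 1 * ‖u - ell L T x‖ := mul_le_mul_of_nonneg_right h3 (norm_nonneg _)
          _ ≤ _ := by rw [one_mul]; exact hx'.le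
      exact (norm_le_pi_norm _ (⟨τ, hτ⟩ : T)).trans h2

end lattice

end Pool.Agent.Helper39.RP
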