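import Pool.Agent.Helper39.RP.SigC

/-!
# Project RP, S_SIG, part D: embeddings and the eigenspace
-/

set_option linter.unusedSectionVars false

namespace Pool.Agent.Helper39.RP

open NumberField Polynomial Module Pool.Agent.Helper51.SigLeo
open Pool.Agent.Helper51.RP

section emb

variable {k : Type} [NormedField k] [CharZero k]

/-- Every embedding of a number field in `k` factors through the algebraic numbers of `k`. -/
theorem factor_emb (ρ : AlgebraicClosure ℚ →+* k) {K : Type} [Field K] [NumberField K]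
    (σ : K →+* k) : ∃ σ₀ : K →+* AlgebraicClosure ℚ, ρ.comp σ₀ = σ := by
  classical
  have hinj : Function.Injective (fun σ₀ : K →+* AlgebraicClosure ℚ => ρ.comp σ₀) := by
    intro a b hab
    ext x
    exact ρ.injective (DFunLike.congr_fun hab x)
  have hcard : Fintype.card (K →+* k) ≤ Fintype.card (K →+* AlgebraicClosure ℚ) := by
    rw [NumberField.Embeddings.card K (AlgebraicClosure ℚ)]
    rw [Fintype.card_congr (RingHom.equivRatAlgHom (R := K) (S := k))]
    rw [← Nat.card_eq_fintype_card]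
    exact card_algHom_le_finrank ℚ K k
  have hb := (Fintype.bijective_iff_injective_and_card _).2
    ⟨hinj, le_antisymm (Fintype.card_le_of_injective _ hinj) hcard⟩
  exact hb.2 σ

theorem extend_emb (ρ : AlgebraicClosure ℚ →+* k) {K M : Type} [Field K] [NumberField K]
    [Field M] [NumberField M] [Algebra K M] (σ : K →+* k) :
    ∃ τ : M →+* k, τ.comp (algebraMap K M) = σ := by
  obtain ⟨σ₀, hσ₀⟩ := factor_emb ρ σ
  let _ : Algebra K (AlgebraicClosure ℚ) := σ₀.toAlgebra
  have halg : Algebra.IsAlgebraic K M := by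
    have : Algebra.IsAlgebraic ℚ M := inferInstance
    have h1 : IsScalarTower ℚ K M := inferInstance
    exact Algebra.IsAlgebraic.tower_top (K := ℚ) K
  let τ₀ : M →ₐ[K] AlgebraicClosure ℚ := IsAlgClosed.lift
  refine ⟨ρ.comp τ₀.toRingHom, ?_⟩
  rw [← hσ₀]
  ext x
  change ρ (τ₀ (algebraMap K M x)) = ρ (σ₀ x)
  rw [τ₀.commutes]
  rfl

theorem trans_emb {K M : Type} [Field K] [Field M] [Algebra K M] [Normal K M]
    (τ τ' : M →+* k) (h : τ.comp (algebraMap K M) = τ'.comp (algebraMap K M)) :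
    ∃ g : M ≃ₐ[K] M, τ = τ'.comp (g : M →+* M) := by
  let _ : Algebra K k := (τ.comp (algebraMap K M)).toAlgebra
  let _ : Algebra M k := τ'.toAlgebra
  have htower : IsScalarTower K M k := by
    refine IsScalarTower.of_algebraMap_eq fun x => ?_
    change (τ.comp (algebraMap K M)) x = τ' (algebraMap K M x)
    rw [h]; rfl
  let τa : M →ₐ[K] k := { τ with commutes' := fun x => rfl }
  refine ⟨Normal.algHomEquivAut K k M τa, ?_⟩
  have h1 := (Normal.algHomEquivAut K k M).symm_apply_apply τa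
  ext x
  have h2 := DFunLike.congr_fun h1 x
  exact h2.symm

end emb

/-- The embeddings of `M` above `T`. -/
abbrev Ab {k : Type} [NormedField k] {K : Type} (M : Type) [Field K] [Field M] [Algebra K M]
    (T : Set (K →+* k)) : Set (M →+* k) := above T

section shift

variable {k : Type} [NormedField k] {K M : Type} [Field K] [Field M] [Algebra K M]
  (T : Set (K →+* k)) (δ : M ≃ₐ[K] M)

/-- Composition with an automorphism. -/
def shift (τ : Ab M T) : (Ab M T) :=
  ⟨τ.1.comp (δ : M →+* M), by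
    change (τ.1.comp (δ : M →+* M)).comp (algebraMap K M) ∈ T
    have h : (τ.1.comp (δ : M →+* M)).comp (algebraMap K M) = τ.1.comp (algebraMap K M) := by
      ext x
      change τ.1 (δ (algebraMap K M x)) = τ.1 (algebraMap K M x)
      rw [δ.commutes]
    rw [h]
    exact τ.2⟩

theorem shift_val (τ : Ab M T) (x : M) : (shift T δ τ).1 x = τ.1 (δ x) := rfl

theorem shift_iter (τ : Ab M T) (n : ℕ) (x : M) :
    ((shift T δ)^[n] τ).1 x = τ.1 ((δ ^ n : M ≃ₐ[K] M) x) := by
  induction n generalizing τ with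
  | zero => rfl
  | succ n ih =>
    rw [Function.iterate_succ_apply, ih, shift_val, pow_succ']
    rfl

/-- The operator `D'`. -/
def DD : ((Ab M T) → k) →ₗ[k] ((Ab M T) → k) :=
  LinearMap.funLeft k k (shift T δ)

theorem DD_apply (f : (Ab M T) → k) (τ : Ab M T) :
    DD T δ f τ = f (shift T δ τ) := rfl

theorem DD_iter (f : (Ab M T) → k) (τ : Ab M T) (n : ℕ) :
    (DD T δ)^[n] f τ = f ((shift T δ)^[n] τ) := by
  induction n generalizing f with
  | zero => rfl
  | succ n ih =>
    rw [Function.iterate_succ_apply, ih, DD_apply, ← Function.iterate_succ_apply' (shift T δ)]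

theorem ell_shift {p : ℕ} (L : IwasawaLog p k) (x : Mˣ) (n : ℕ) :
    ell L (Ab M T)
      (Units.map (((δ ^ n : M ≃ₐ[K] M) : M →+* M) : M →* M) x) =
      (DD T δ)^[n] (ell L (Ab M T) x) := by
  funext τ
  rw [DD_iter]
  change L.toFun _ = L.toFun _
  congr 1
  ext
  exact (shift_iter T δ τ n (x : M)).symm

theorem UT_shift {x : Mˣ} (hx : x ∈ UT (Ab M T)) (g : M ≃ₐ[K] M) :
    Units.map ((g : M →+* M) : M →* M) x ∈ UT (Ab M T) := by
  intro τ hτ
  exact hx _ (shift T g ⟨τ, hτ⟩).2

end shift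

section eigen

variable {k : Type} [NormedField k] [CharZero k] {K M : Type} [Field K] [NumberField K] [Field M]
  [NumberField M] [Algebra K M] [IsGalois K M]

theorem pow_of_gal {m : ℕ} {δ : M ≃ₐ[K] M} (hδ : orderOf δ = m) (hm : finrank K M = m)
    (g : M ≃ₐ[K] M) : ∃ i : ℕ, g = δ ^ i := by
  have hfd : FiniteDimensional K M := by
    have h1 : IsScalarTower ℚ K M := inferInstance
    exact FiniteDimensional.right ℚ K M
  have hcard : Nat.card (M ≃ₐ[K] M) = m := by
    rw [IsGalois.card_aut_eq_finrank, hm]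
  have h1 : Subgroup.zpowers δ = ⊤ := by
    apply Subgroup.eq_top_of_card_eq
    rw [Nat.card_zpowers, hδ, hcard]
  have h2 : g ∈ Subgroup.zpowers δ := by rw [h1]; trivial
  rw [← mem_powers_iff_mem_zpowers] at h2
  obtain ⟨i, hi⟩ := h2
  exact ⟨i, hi.symm⟩

/-- The dimension of the eigenspace. -/
theorem eigen_dim (ρ : AlgebraicClosure ℚ →+* k) (T : Set (K →+* k)) {m : ℕ} {δ : M ≃ₐ[K] M}
    (hδ : orderOf δ = m) (hm : finrank K M = m) {ζ : k} (hζ : ζ ^ m = 1) (hm0 : 0 < m) :
    T.ncard ≤ finrank k (LinearMap.ker (DD T δ - ζ • LinearMap.id)) := by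
  classical
  have hζ0 : ζ ≠ 0 := by
    rintro rfl
    rw [zero_pow hm0.ne'] at hζ
    exact zero_ne_one hζ
  choose E hE using fun σ : K →+* k => extend_emb (M := M) ρ σ
  have hex : ∀ τ : Ab M T, ∃ i : ℕ,
      τ.1 = (E (τ.1.comp (algebraMap K M))).comp ((δ ^ i : M ≃ₐ[K] M) : M →+* M) := by
    intro τ
    obtain ⟨g, hg⟩ := trans_emb τ.1 (E (τ.1.comp (algebraMap K M))) (hE _).symm
    obtain ⟨i, rfl⟩ := pow_of_gal hδ hm g
    exact ⟨i, hg⟩
  choose ix hix using hex
  have hres : ∀ τ : Ab M T,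
      (shift T δ τ).1.comp (algebraMap K M) = τ.1.comp (algebraMap K M) := by
    intro τ
    ext x
    change τ.1 (δ (algebraMap K M x)) = τ.1 (algebraMap K M x)
    rw [δ.commutes]
  have hpow : ∀ τ : Ab M T, ζ ^ ix (shift T δ τ) = ζ ^ (ix τ + 1) := by
    intro τ
    have h1 := hix (shift T δ τ)
    rw [hres τ] at h1
    have h2 : δ ^ ix (shift T δ τ) = δ ^ (ix τ + 1) := by
      ext x
      apply (E (τ.1.comp (algebraMap K M))).injective
      have h3 := DFunLike.congr_fun h1 x
      have h4 := DFunLike.congr_fun (hix τ) (δ x)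
      change (E (τ.1.comp (algebraMap K M))) ((δ ^ ix (shift T δ τ) : M ≃ₐ[K] M) x) =
        (E (τ.1.comp (algebraMap K M))) ((δ ^ (ix τ + 1) : M ≃ₐ[K] M) x)
      rw [pow_succ]
      change _ = (E (τ.1.comp (algebraMap K M))) ((δ ^ ix τ : M ≃ₐ[K] M) (δ x))
      exact h3.symm.trans h4
    rw [pow_inj_mod, hδ] at h2
    rw [← Nat.mod_add_div (ix (shift T δ τ)) m, ← Nat.mod_add_div (ix τ + 1) m, h2, pow_add,
      pow_add, pow_mul, pow_mul, hζ, one_pow, one_pow]
  -- the linear map
  let Ψ : (T → k) →ₗ[k] LinearMap.ker (DD T δ - ζ • LinearMap.id) :=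
    { toFun := fun g => ⟨fun τ => g ⟨τ.1.comp (algebraMap K M), τ.2⟩ * ζ ^ ix τ, by
        rw [LinearMap.mem_ker, LinearMap.sub_apply, LinearMap.smul_apply, LinearMap.id_apply,
          sub_eq_zero]
        funext τ
        rw [DD_apply, Pi.smul_apply, smul_eq_mul, hpow]
        have h5 : (⟨(shift T δ τ).1.comp (algebraMap K M), (shift T δ τ).2⟩ : T) =
            ⟨τ.1.comp (algebraMap K M), τ.2⟩ := Subtype.ext (hres τ)
        rw [h5, pow_succ]
        ring⟩
      map_add' := by
        intro a b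
        ext τ
        change (a _ + b _) * _ = a _ * _ + b _ * _
        ring
      map_smul' := by
        intro c a
        ext τ
        change (c * a _) * _ = c * (a _ * _)
        ring }
  have hΨ : Function.Injective Ψ := by
    intro a b hab
    funext σ
    have h1 : E σ.1 ∈ (Ab M T) := by
      change (E σ.1).comp (algebraMap K M) ∈ T
      rw [hE]; exact σ.2
    have h2 := congrFun (congrArg Subtype.val hab) ⟨E σ.1, h1⟩
    change a ⟨(E σ.1).comp (algebraMap K M), h1⟩ * ζ ^ ix ⟨E σ.1, h1⟩ =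
      b ⟨(E σ.1).comp (algebraMap K M), h1⟩ * ζ ^ ix ⟨E σ.1, h1⟩ at h2
    have h3 := mul_right_cancel₀ (pow_ne_zero _ hζ0) h2
    have h4 : (⟨(E σ.1).comp (algebraMap K M), h1⟩ : T) = σ := Subtype.ext (hE σ.1)
    rwa [h4] at h3
  have hTfin : Finite T := inferInstance
  have : Fintype T := Fintype.ofFinite T
  have h1 := LinearMap.finrank_le_finrank_of_injective hΨ
  rw [finrank_fintype_fun_eq_card] at h1
  rwa [Set.ncard_eq_toFinset_card', Set.toFinset_card]

end eigen

end Pool.Agent.Helper39.RP
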