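import Pool.Agent.Helper26.RP.Goals

/-!
# MP_105b7b_pr, packet ULB: the lower bound for all bodies
-/

set_option autoImplicit false

open MeasureTheory Filter Topology

namespace RP.PkULB

open RP

theorem lb_mono {K : Set E} {g g' : ℝ} (h : LB K g) (hg : g' ≤ g) : LB K g' := by
  intro ε hε
  filter_upwards [h ε hε] with n hn
  refine le_trans (Real.exp_le_exp.2 ?_) hn
  have : (0 : ℝ) ≤ n := Nat.cast_nonneg n
  nlinarith

theorem convex_HL (a b c : ℝ) : Convex ℝ (HL a b c) := by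
  intro x hx y hy s t hs ht hst
  simp only [HL, Set.mem_ofPred_eq] at hx hy ⊢
  simp only [Prod.fst_add, Prod.snd_add, Prod.smul_fst, Prod.smul_snd, smul_eq_mul]
  have hc : c = s * c + t * c := by rw [← add_mul, hst, one_mul]
  rw [hc]
  nlinarith [mul_le_mul_of_nonneg_left hx hs, mul_le_mul_of_nonneg_left hy ht]

theorem closed_HL (a b c : ℝ) : IsClosed (HL a b c) := by
  apply isClosed_le <;> fun_prop

theorem body_inter {K T : Set E} (a b c : ℝ) (hK : Body K) (hT : Body T)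
    (h : T ⊆ K ∩ HL a b c) : Body (K ∩ HL a b c) where
  conv := hK.conv.inter (convex_HL a b c)
  cpt := hK.cpt.inter_right (closed_HL a b c)
  int := hT.int.mono (interior_mono h)

theorem vol_ne_zero {K : Set E} (hK : Body K) : volume K ≠ 0 := by
  obtain ⟨x, hx⟩ := hK.int
  exact (MeasureTheory.Measure.measure_pos_of_nonempty_interior volume ⟨x, hx⟩).ne'

theorem vol_ne_top {K : Set E} (hK : Body K) : volume K ≠ ⊤ := hK.cpt.measure_ne_top

theorem ar_pos {K : Set E} (hK : Body K) : 0 < ar K :=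
  ENNReal.toReal_pos (vol_ne_zero hK) (vol_ne_top hK)

theorem step (hCLB : G_CLB) (hTRI : G_TRI) (hTHL : G_THL) (hTRE : G_TRE) (g β : ℝ)
    (hβg : β ≤ g) (hT : ∀ p q r : E, orient p q r ≠ 0 → LB (tri p q r) g)
    (hβ : ∀ K : Set E, Body K → LB K β) (K : Set E) (hK : Body K) :
    LB K (β + (g - β) / 4) := by
  obtain ⟨p, q, r, ho, hsub, har⟩ := hTRI K hK
  obtain ⟨a, b, c, hab, hT3⟩ := hTHL p q r ho
  have hTb : Body (tri p q r) := (hTRE.1 p q r ho).1
  have hTg := hT p q r ho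
  have hA := ar_pos hTb
  set T := tri p q r with hTdef
  set x := (g - β) * ar T with hx
  have hx0 : 0 ≤ x := mul_nonneg (by linarith) hA.le
  have hH0 : T ⊆ HL (a 0) (b 0) (c 0) := by
    rw [hT3]
    exact fun z hz => hz.1.1
  have hH1 : T ⊆ HL (a 1) (b 1) (c 1) := by
    rw [hT3]
    exact fun z hz => hz.1.2
  have hH2 : T ⊆ HL (a 2) (b 2) (c 2) := by
    rw [hT3]
    exact fun z hz => hz.2
  have s1 : T ⊆ K ∩ HL (a 0) (b 0) (c 0) := Set.subset_inter hsub hH0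
  have b1 : Body (K ∩ HL (a 0) (b 0) (c 0)) := body_inter _ _ _ hK hTb s1
  have s2 : T ⊆ K ∩ HL (a 0) (b 0) (c 0) ∩ HL (a 1) (b 1) (c 1) := Set.subset_inter s1 hH1
  have b2 : Body (K ∩ HL (a 0) (b 0) (c 0) ∩ HL (a 1) (b 1) (c 1)) := body_inter _ _ _ b1 hTb s2
  have s3 : T ⊆ K ∩ HL (a 0) (b 0) (c 0) ∩ HL (a 1) (b 1) (c 1) ∩ HL (a 2) (b 2) (c 2) :=
    Set.subset_inter s2 hH2
  have b3 : Body (K ∩ HL (a 0) (b 0) (c 0) ∩ HL (a 1) (b 1) (c 1) ∩ HL (a 2) (b 2) (c 2)) :=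
    body_inter _ _ _ b2 hTb s3
  have e3 : K ∩ HL (a 0) (b 0) (c 0) ∩ HL (a 1) (b 1) (c 1) ∩ HL (a 2) (b 2) (c 2) = T := by
    apply Set.Subset.antisymm _ s3
    intro z hz
    rw [hT3]
    exact ⟨⟨hz.1.1.2, hz.1.2⟩, hz.2⟩
  have l3 : LB (K ∩ HL (a 0) (b 0) (c 0) ∩ HL (a 1) (b 1) (c 1) ∩ HL (a 2) (b 2) (c 2))
      (β + x / ar (K ∩ HL (a 0) (b 0) (c 0) ∩ HL (a 1) (b 1) (c 1) ∩
        HL (a 2) (b 2) (c 2))) := by
    rw [e3, hx, mul_div_assoc, div_self hA.ne', mul_one, add_sub_cancel]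
    exact hTg
  have l2 := hCLB _ (a 2) (b 2) (c 2) β x b2 (hab 2) b3 hx0 l3 (fun hb => hβ _ hb)
  have l1 := hCLB _ (a 1) (b 1) (c 1) β x b1 (hab 1) b2 hx0 l2 (fun hb => hβ _ hb)
  have l0 := hCLB _ (a 0) (b 0) (c 0) β x hK (hab 0) b1 hx0 l1 (fun hb => hβ _ hb)
  refine lb_mono l0 ?_
  have hKp := ar_pos hK
  have : (g - β) / 4 ≤ x / ar K := by
    rw [div_le_div_iff₀ (by norm_num) hKp, hx]
    nlinarith
  linarith

theorem lb_zero (hEXC : G_EXC) (K : Set E) (hK : Body K) : LB K 0 := by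
  obtain ⟨C, -, h⟩ := hEXC
  intro ε hε
  filter_upwards [eventually_ge_atTop 3] with n hn
  have h1 := (h n K hn hK.cpt.measurableSet (vol_ne_zero hK) (vol_ne_top hK)).1
  refine le_trans ?_ h1
  rw [Real.exp_le_one_iff]
  have : (0 : ℝ) ≤ n := Nat.cast_nonneg n
  nlinarith

/-- packet ULB -/
theorem ulb (hCLB : G_CLB) (hTRI : G_TRI) (hTHL : G_THL) (hEXC : G_EXC) (hTRE : G_TRE) :
    G_ULB := by
  intro g hg hT K hK
  have key : ∀ k : ℕ, ∀ K : Set E, Body K → LB K (g - (3 / 4) ^ k * g) := by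
    intro k
    induction k with
    | zero =>
      intro K hK
      have := lb_zero hEXC K hK
      simpa using this
    | succ k ih =>
      intro K hK
      have hpos : 0 ≤ (3 / 4 : ℝ) ^ k * g := by positivity
      have := step hCLB hTRI hTHL hTRE g (g - (3 / 4) ^ k * g) (by linarith) hT ih K hK
      refine lb_mono this (le_of_eq ?_)
      ring
  intro ε hε
  have hlim : Tendsto (fun k : ℕ => (3 / 4 : ℝ) ^ k * g) atTop (𝓝 (0 * g)) :=
    (tendsto_pow_atTop_nhds_zero_of_lt_one (by norm_num) (by norm_num)).mul_const g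
  rw [zero_mul] at hlim
  obtain ⟨k, hk⟩ := (hlim.eventually (gt_mem_nhds (half_pos hε))).exists
  filter_upwards [key k K hK (ε / 2) (half_pos hε)] with n hn
  refine le_trans (Real.exp_le_exp.2 ?_) hn
  have : (0 : ℝ) ≤ n := Nat.cast_nonneg n
  nlinarith

end RP.PkULB
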